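import Mathlib

namespace Pool.Agent.H.MP_113557_an

open Filter Topology Set Finset

abbrev Fn := ℝ → ℤ → ℝ

def Sh (a : ℝ) (n : ℤ) (F : Fn) : Fn := fun s i => F (s - a) (i - n)
noncomputable def avg (N : ℕ) (p : ℝ) (F : Fn) : Fn :=
  fun s i => (N : ℝ)⁻¹ * ∑ j ∈ range N, F (s - j * p) (i - j)
def Dp (p : ℝ) (F : Fn) : Fn := fun s i => F s i - F (s - p) (i - 1)
def DD (F : Fn) : Fn := fun s i => F s i - 2 * F s (i - 1) + F s (i - 2)

def Bd (F : Fn) (c : ℝ) : Prop := ∀ s i, |F s i| ≤ c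
def Lip (F : Fn) (c : ℝ) : Prop := ∀ s s' i, |F s i - F s' i| ≤ c * |s - s'|
def Supp (F : Fn) (lo hi : ℤ) : Prop := ∀ s i, F s i ≠ 0 → lo ≤ i ∧ i ≤ hi ∧ |s| ≤ i
def E (q : ℝ) (F : Fn) (e : ℝ → ℝ) : Prop := ∀ m, HasSum (fun i : ℤ => F (m + q * i) i) (e m)

lemma avg_le {N : ℕ} (hN : 0 < N) {a : ℕ → ℝ} {c : ℝ} (h : ∀ j, |a j| ≤ c) :
    |(N : ℝ)⁻¹ * ∑ j ∈ range N, a j| ≤ c := by
  have hN' : (0 : ℝ) < N := by exact_mod_cast hN
  rw [abs_mul, abs_inv, abs_of_pos hN', inv_mul_le_iff₀ hN']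
  refine (abs_sum_le_sum_abs _ _).trans ?_
  simpa using sum_le_card_nsmul (range N) (fun j => |a j|) c fun j _ => h j

lemma Bd.avg {F c} (h : Bd F c) {N : ℕ} (hN : 0 < N) (p : ℝ) : Bd (avg N p F) c :=
  fun _ _ => avg_le hN fun _ => h _ _

lemma Lip.avg {F c} (h : Lip F c) {N : ℕ} (hN : 0 < N) (p : ℝ) : Lip (avg N p F) c := by
  intro s s' i
  simp only [H.MP_113557_an.avg, ← mul_sub, ← sum_sub_distrib]
  refine avg_le hN fun j => ?_
  simpa using h (s - j * p) (s' - j * p) (i - j)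

lemma Bd.sh {F c} (h : Bd F c) (a : ℝ) (n : ℤ) : Bd (Sh a n F) c := fun _ _ => h _ _

lemma Lip.sh {F c} (h : Lip F c) (a : ℝ) (n : ℤ) : Lip (Sh a n F) c := by
  intro s s' i
  simpa [Sh] using h (s - a) (s' - a) (i - n)

lemma Supp.sh {F lo hi} (h : Supp F lo hi) {p : ℝ} (h0 : 0 ≤ p) (h1 : p ≤ 1) (n : ℕ) :
    Supp (Sh (n * p) n F) (lo + n) (hi + n) := by
  intro s i hs
  obtain ⟨a, b, c⟩ := h _ _ hs
  refine ⟨by omega, by omega, ?_⟩
  have hn : (0 : ℝ) ≤ n := n.cast_nonneg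
  have : (n : ℝ) * p ≤ n := by nlinarith
  have h2 : 0 ≤ (n : ℝ) * p := by positivity
  push_cast at c
  rw [abs_le] at c ⊢
  constructor <;> linarith [c.1, c.2]

lemma Supp.avg {F lo hi} (h : Supp F lo hi) {p : ℝ} (h0 : 0 ≤ p) (h1 : p ≤ 1) (N : ℕ) :
    Supp (avg N p F) lo (hi + N) := by
  intro s i hs
  obtain ⟨j, hj, hj'⟩ := exists_ne_zero_of_sum_ne_zero (right_ne_zero_of_mul hs)
  obtain ⟨a, b, c⟩ := h.sh h0 h1 j s i hj'
  have := mem_range.1 hj
  exact ⟨by omega, by omega, c⟩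

lemma E.sh {q F e} (h : E q F e) (a : ℝ) (n : ℤ) : E q (Sh a n F) fun m => e (m + q * n - a) := by
  intro m
  have := (Equiv.subRight n).hasSum_iff.2 (h (m + q * n - a))
  convert this using 2 with i
  simp only [Sh, Function.comp, Equiv.subRight_apply]
  congr 1
  push_cast; ring

lemma E.avg {q F e} (h : E q F e) (N : ℕ) (p : ℝ) :
    E q (avg N p F) fun m => (N : ℝ)⁻¹ * ∑ j ∈ range N, e (m + q * j - j * p) := by
  intro m
  exact (hasSum_sum fun j _ => by simpa [Sh] using h.sh (j * p) j m).mul_left _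

lemma E.avg0 {q F} (h : E q F 0) (N : ℕ) (p : ℝ) : E q (H.MP_113557_an.avg N p F) 0 := by
  intro m
  simpa using h.avg N p m

lemma E.avgp {p F e} (h : E p F e) {N : ℕ} (hN : 0 < N) : E p (H.MP_113557_an.avg N p F) e := by
  intro m
  have hN' : (N : ℝ) ≠ 0 := by exact_mod_cast hN.ne'
  have := h.avg N p m
  simpa [mul_comm p, ← mul_assoc, inv_mul_cancel₀ hN'] using this

lemma Supp.exE {F lo hi} (h : Supp F lo hi) (q : ℝ) : ∃ e, E q F e := by
  refine ⟨fun m => ∑ i ∈ Finset.Icc lo hi, F (m + q * i) i, fun m => hasSum_sum_of_ne_finset_zero ?_⟩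
  intro i hi'
  by_contra hc
  obtain ⟨a, b, -⟩ := h _ _ hc
  exact hi' (Finset.mem_Icc.2 ⟨a, b⟩)

lemma Dp_avg (N : ℕ) (p : ℝ) (F : Fn) (s : ℝ) (i : ℤ) :
    Dp p (avg N p F) s i = (N : ℝ)⁻¹ * (F s i - F (s - N * p) (i - N)) := by
  simp only [Dp, avg, ← mul_sub, ← sum_sub_distrib]
  congr 1
  have := Finset.sum_range_sub' (fun j : ℕ => F (s - j * p) (i - j)) N
  simp only [Nat.cast_zero, zero_mul, sub_zero] at this
  rw [← this]
  refine sum_congr rfl fun j _ => ?_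
  congr 2
  · push_cast; ring
  · push_cast; ring

lemma two_le {N : ℕ} {a b c : ℝ} (ha : |a| ≤ c) (hb : |b| ≤ c) :
    |(N : ℝ)⁻¹ * (a - b)| ≤ (N : ℝ)⁻¹ * (2 * c) := by
  rw [abs_mul, abs_of_nonneg (by positivity : (0 : ℝ) ≤ (N : ℝ)⁻¹)]
  have := abs_sub a b
  gcongr
  linarith

lemma Bd.dp1 {F c} (h : Bd F c) (N : ℕ) (p : ℝ) :
    Bd (Dp p (H.MP_113557_an.avg N p F)) ((N : ℝ)⁻¹ * (2 * c)) := by
  intro s i
  rw [Dp_avg]; exact two_le (h _ _) (h _ _)

lemma Bd.dp2 {F c p} (h : Bd (Dp p F) c) (N : ℕ) :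
    Bd (Dp p (Dp p (H.MP_113557_an.avg N p F))) ((N : ℝ)⁻¹ * (2 * c)) := by
  intro s i
  have : Dp p (Dp p (H.MP_113557_an.avg N p F)) s i =
      (N : ℝ)⁻¹ * (Dp p F s i - Dp p F (s - N * p) (i - N)) := by
    rw [Dp, Dp_avg, Dp_avg]
    simp only [Dp]
    rw [sub_right_comm s, sub_right_comm i]
    ring
  rw [this]; exact two_le (h _ _) (h _ _)

lemma Bd.avg1 {F c} {d : ℕ} (h : Bd F c) (hs : Supp F 1 d) (N : ℕ) (p : ℝ) :
    Bd (H.MP_113557_an.avg N p F) ((N : ℝ)⁻¹ * (d * c)) := by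
  intro s i
  rw [H.MP_113557_an.avg, abs_mul, abs_of_nonneg (by positivity : (0 : ℝ) ≤ (N : ℝ)⁻¹)]
  gcongr
  have hc : 0 ≤ c := (abs_nonneg _).trans (h 0 0)
  classical
  rw [← sum_filter_ne_zero]
  refine (abs_sum_le_sum_abs _ _).trans ?_
  refine (sum_le_card_nsmul _ _ c fun j _ => h _ _).trans ?_
  rw [nsmul_eq_mul]
  gcongr
  have : #{j ∈ range N | F (s - (j : ℕ) * p) (i - (j : ℕ)) ≠ 0} ≤ #(Finset.Icc (1 : ℤ) d) := by
    refine card_le_card_of_injOn (fun j : ℕ => i - (j : ℤ)) (fun j hj => ?_) fun a _ b _ hab => ?_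
    · obtain ⟨a, b, -⟩ := hs _ _ (mem_filter.1 hj).2
      exact Finset.mem_coe.2 (Finset.mem_Icc.2 ⟨a, b⟩)
    · simp only at hab; omega
  simpa using this

lemma DD_le {F c Λ p} (h : Bd (Dp p (Dp p F)) c) (hL : Lip F Λ) (hp : 0 ≤ p) :
    Bd (DD F) (c + 4 * (Λ * p)) := by
  intro s i
  have h1 := h s i
  have h2 := hL (s - p) s (i - 1)
  have h3 := hL (s - p - p) s (i - 1 - 1)
  have e1 : |s - p - s| = p := by rw [show s - p - s = -p by ring, abs_neg, abs_of_nonneg hp]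
  have e2 : |s - p - p - s| = 2 * p := by
    rw [show s - p - p - s = -(2 * p) by ring, abs_neg, abs_of_nonneg (by positivity)]
  rw [e1] at h2; rw [e2] at h3
  simp only [Dp, DD] at h1 ⊢
  rw [show i - 2 = i - 1 - 1 by ring]
  rw [abs_le] at h1 h2 h3 ⊢
  constructor <;> linarith [h1.1, h1.2, h2.1, h2.2, h3.1, h3.2]

def Inv (A : Fn) (d : ℕ) : Prop := ∃ M Λ : ℝ, 0 < Λ ∧ Bd A M ∧ Lip A Λ ∧ Supp A 1 d

lemma step {A : Fn} {d : ℕ} (h : Inv A d) {ε : ℝ} (hε : 0 < ε) :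
    ∃ (A' : Fn) (d' : ℕ) (p : ℝ), Inv A' d' ∧ 0 < p ∧ d < d' ∧ p < ε ∧ E p A' 0 ∧
      (∀ q, E q A 0 → E q A' 0) ∧ (∀ s (i : ℤ), i ≤ d + 2 → A' s i = A s i) ∧
      ∀ s (i : ℤ), d + 2 < i → (i : ℝ) ^ 2 * |DD A' s i| ≤ 1 := by
  obtain ⟨M, Λ, hΛ, hB, hL, hS⟩ := h
  have hM : 0 ≤ M := (abs_nonneg _).trans (hB 0 0)
  obtain ⟨N, hN⟩ := exists_nat_ge (200 * (d * M) + d + 2)
  have hd : (0 : ℝ) ≤ d := d.cast_nonneg
  have hdM : 0 ≤ d * M := by positivity
  have hN0 : (0 : ℝ) < N := by linarith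
  have hNp : 0 < N := by exact_mod_cast hN0
  have hNd : d + 2 ≤ N := by
    have : (d : ℝ) + 2 ≤ N := by linarith
    exact_mod_cast this
  set p : ℝ := min (min (ε / 2) 1) (200 * Λ * N ^ 2)⁻¹ with hp
  have hp0 : 0 < p := by positivity
  have hp1 : p ≤ 1 := (min_le_left _ _).trans (min_le_right _ _)
  have hpε : p < ε := ((min_le_left _ _).trans (min_le_left _ _)).trans_lt (by linarith)
  have hp2 : p ≤ (200 * Λ * N ^ 2)⁻¹ := min_le_right _ _
  set C := avg N p (avg N p (avg N p A)) with hC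
  set B := Sh (((d + 2 : ℕ) : ℝ) * p) ((d + 2 : ℕ) : ℤ) C with hBdef
  have sB : Supp B (1 + (d + 2 : ℕ)) (d + N + N + N + (d + 2 : ℕ)) :=
    (((hS.avg hp0.le hp1 N).avg hp0.le hp1 N).avg hp0.le hp1 N).sh hp0.le hp1 _
  have bB : Bd B M := (((hB.avg hNp p).avg hNp p).avg hNp p).sh _ _
  have lC : Lip C Λ := ((hL.avg hNp p).avg hNp p).avg hNp p
  have lB : Lip B Λ := lC.sh _ _
  have dC := DD_le (((hB.avg1 hS N p).dp1 N p).dp2 N) lC hp0.le
  have A0 : ∀ s (i : ℤ), d < i → A s i = 0 := fun s i hi => by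
    by_contra hc; have := (hS _ _ hc).2.1; omega
  refine ⟨fun s i => A s i - B s i, 2 * d + 2 + 3 * N, p, ⟨2 * M, 2 * Λ, by positivity, ?_, ?_, ?_⟩,
    hp0, by omega, hpε, ?_, ?_, ?_, ?_⟩
  · intro s i
    have := abs_sub (A s i) (B s i)
    linarith [hB s i, bB s i]
  · intro s s' i
    have := abs_sub (A s i - A s' i) (B s i - B s' i)
    rw [show A s i - B s i - (A s' i - B s' i) = A s i - A s' i - (B s i - B s' i) by ring]
    linarith [hL s s' i, lB s s' i]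
  · intro s i hs
    by_cases hA : A s i = 0
    · have : B s i ≠ 0 := fun h => hs (by simp [hA, h])
      obtain ⟨a, b, c⟩ := sB _ _ this
      push_cast at a b ⊢
      exact ⟨by omega, by omega, c⟩
    · obtain ⟨a, b, c⟩ := hS _ _ hA
      push_cast
      exact ⟨a, by omega, c⟩
  · obtain ⟨e, he⟩ := hS.exE p
    intro m
    have := (((he.avgp hNp).avgp hNp).avgp hNp).sh (((d + 2 : ℕ) : ℝ) * p) ((d + 2 : ℕ) : ℤ) m
    have e1 : m + p * (((d + 2 : ℕ) : ℤ) : ℝ) - ((d + 2 : ℕ) : ℝ) * p = m := by push_cast; ring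
    simp only [e1] at this
    have h2 := (he m).sub this
    rw [sub_self] at h2
    exact h2
  · intro q hq m
    have := (((hq.avg0 N p).avg0 N p).avg0 N p).sh (((d + 2 : ℕ) : ℝ) * p) ((d + 2 : ℕ) : ℤ) m
    have h2 := (hq m).sub this
    simp only [Pi.zero_apply, sub_self] at h2
    exact h2
  · intro s i hi
    have : B s i = 0 := by
      by_contra hc; have := (sB _ _ hc).1; push_cast at this; omega
    simp [this]
  · intro s i hi
    have e1 : DD (fun s i => A s i - B s i) s i = -DD B s i := by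
      simp only [DD, A0 s i (by omega), A0 s (i - 1) (by omega), A0 s (i - 2) (by omega)]
      ring
    rw [e1, abs_neg]
    by_cases hi5 : i ≤ 5 * N
    · have e2 : DD B s i = DD C (s - ((d + 2 : ℕ) : ℝ) * p) (i - ((d + 2 : ℕ) : ℤ)) := by
        simp only [DD, hBdef, Sh]
        rw [sub_right_comm i 1, sub_right_comm i 2]
      rw [e2]
      have h1 := dC (s - ((d + 2 : ℕ) : ℝ) * p) (i - ((d + 2 : ℕ) : ℤ))
      have h2 : (i : ℝ) ≤ 5 * N := by exact_mod_cast hi5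
      have h3 : (0 : ℝ) ≤ i := by exact_mod_cast (by omega : (0 : ℤ) ≤ i)
      have h4 : Λ * p ≤ (200 * (N : ℝ) ^ 2)⁻¹ := by
        calc Λ * p ≤ Λ * (200 * Λ * N ^ 2)⁻¹ := by gcongr
          _ = _ := by field_simp
      have h5 : (d : ℝ) * M ≤ N / 200 := by linarith
      calc (i : ℝ) ^ 2 * _ ≤ (5 * N) ^ 2 * ((N : ℝ)⁻¹ * (2 * ((N : ℝ)⁻¹ * (2 * ((N : ℝ)⁻¹ * (N / 200))))) +
            4 * (200 * (N : ℝ) ^ 2)⁻¹) := by
            gcongr
            refine h1.trans ?_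
            gcongr
        _ = 1 := by field_simp; norm_num
    · have B0 : ∀ j : ℤ, i - 2 ≤ j → B s j = 0 := fun j hj => by
        by_contra hc; have := (sB _ _ hc).2.1; push_cast at this; omega
      simp [DD, B0 i (by omega), B0 (i - 1) (by omega), B0 (i - 2) le_rfl]

noncomputable def A0 : Fn := fun s i => if i = 1 then max 0 (1 - |s|) else 0

lemma A0_bd : Bd A0 1 := by
  intro s i
  have := abs_nonneg s
  unfold A0
  split_ifs
  · rw [abs_of_nonneg (le_max_left _ _)]; exact max_le zero_le_one (by linarith)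
  · simp

lemma inv0 : Inv A0 1 := by
  refine ⟨1, 1, one_pos, A0_bd, fun s s' i => ?_, fun s i hs => ?_⟩
  · unfold A0
    split_ifs
    · have h1 := abs_max_sub_max_le_abs (1 - |s|) (1 - |s'|) 0
      have h2 := abs_abs_sub_abs_le_abs_sub s s'
      rw [max_comm 0, max_comm 0, one_mul]
      rw [show 1 - |s| - (1 - |s'|) = -(|s| - |s'|) by ring, abs_neg] at h1
      exact h1.trans h2
    · simp
  · unfold A0 at hs
    split_ifs at hs with h
    · subst h
      refine ⟨le_rfl, le_rfl, ?_⟩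
      by_contra hc
      exact hs (max_eq_left (by push_cast at hc; linarith))
    · exact absurd rfl hs

lemma Lip.cont {F c} (h : Lip F c) (i : ℤ) : Continuous fun s => F s i := by
  have hc : 0 ≤ c := by
    have := (abs_nonneg _).trans (h 1 0 i)
    simpa using this
  exact (LipschitzWith.of_dist_le_mul (K := ⟨c, hc⟩) fun s s' => h s s' i).continuous

structure St where
  A : Fn
  d : ℕ
  p : ℝ
  inv : Inv A d
  pos : 0 < p

def Rel (a b : St) : Prop :=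
  a.d < b.d ∧ b.p < a.p ∧ E b.p b.A 0 ∧ (∀ q, E q a.A 0 → E q b.A 0) ∧
    (∀ s (i : ℤ), i ≤ a.d + 2 → b.A s i = a.A s i) ∧
    ∀ s (i : ℤ), a.d + 2 < i → (i : ℝ) ^ 2 * |DD b.A s i| ≤ 1

lemma step' (a : St) : ∃ b, Rel a b := by
  obtain ⟨A', d', p, h1, h2, h3⟩ := step a.inv a.pos
  exact ⟨⟨A', d', p, h1, h2⟩, h3⟩

noncomputable def st : ℕ → St
  | 0 => ⟨A0, 1, 1, inv0, one_pos⟩
  | k + 1 => (step' (st k)).choose

lemma rel (k : ℕ) : Rel (st k) (st (k + 1)) := (step' (st k)).choose_spec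

lemma d_mono : StrictMono fun k => (st k).d := strictMono_nat_of_lt_succ fun k => (rel k).1
lemma p_anti : StrictAnti fun k => (st k).p := strictAnti_nat_of_succ_lt fun k => (rel k).2.1

lemma stab {k l : ℕ} (h : k ≤ l) (s : ℝ) {i : ℤ} (hi : i ≤ (st k).d + 2) :
    (st l).A s i = (st k).A s i := by
  induction l, h using Nat.le_induction with
  | base => rfl
  | succ l hl ih =>
    have : (st k).d ≤ (st l).d := d_mono.monotone hl
    rw [(rel l).2.2.2.2.1 s i (by omega), ih]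

lemma stabD {k l : ℕ} (h : k ≤ l) (s : ℝ) {i : ℤ} (hi : i ≤ (st k).d + 2) :
    DD (st l).A s i = DD (st k).A s i := by
  simp only [DD]
  rw [stab h s hi, stab h s (i := i - 1) (by omega), stab h s (i := i - 2) (by omega)]

lemma bdD (k : ℕ) (s : ℝ) (i : ℤ) (hi : 1 ≤ i) : (i : ℝ) ^ 2 * |DD (st k).A s i| ≤ 36 := by
  induction k with
  | zero =>
    by_cases h : i ≤ 3
    · have h1 : (i : ℝ) ≤ 3 := by exact_mod_cast h
      have h0 : (1 : ℝ) ≤ i := by exact_mod_cast hi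
      have h2 : |DD A0 s i| ≤ 4 := by
        have a := A0_bd s i
        have b := A0_bd s (i - 1)
        have c := A0_bd s (i - 2)
        simp only [DD]
        rw [abs_le] at a b c ⊢
        constructor <;> linarith [a.1, a.2, b.1, b.2, c.1, c.2]
      calc (i : ℝ) ^ 2 * |DD A0 s i| ≤ 3 ^ 2 * 4 := by gcongr
        _ = 36 := by norm_num
    · have : DD A0 s i = 0 := by
        simp only [DD, A0]
        rw [if_neg (by omega), if_neg (by omega), if_neg (by omega)]; ring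
      change (i : ℝ) ^ 2 * |DD A0 s i| ≤ 36
      simp [this]
  | succ k ih =>
    by_cases h : i ≤ (st k).d + 2
    · rw [stabD (Nat.le_succ k) s h]; exact ih
    · exact ((rel k).2.2.2.2.2 s i (by omega)).trans (by norm_num)

lemma EE {j k : ℕ} (h : j + 1 ≤ k) : E (st (j + 1)).p (st k).A 0 := by
  induction k, h using Nat.le_induction with
  | base => exact (rel j).2.2.1
  | succ l _ ih => exact (rel l).2.2.2.1 _ ih

lemma suppD (k : ℕ) : Supp (DD (st k).A) 1 ((st k).d + 2) := by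
  obtain ⟨_, _, -, -, -, hS⟩ := (st k).inv
  intro s i hs
  by_cases h0 : (st k).A s i = 0
  · by_cases h1 : (st k).A s (i - 1) = 0
    · have h2 : (st k).A s (i - 2) ≠ 0 := fun h2 => hs (by simp [DD, h0, h1, h2])
      obtain ⟨a, b, c⟩ := hS _ _ h2
      push_cast at c
      exact ⟨by omega, by omega, by linarith⟩
    · obtain ⟨a, b, c⟩ := hS _ _ h1
      push_cast at c
      exact ⟨by omega, by omega, by linarith⟩
  · obtain ⟨a, b, c⟩ := hS _ _ h0
    exact ⟨a, by omega, c⟩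

lemma ED {q F} (h : E q F 0) : E q (DD F) 0 := by
  intro m
  have := ((h m).sub ((h.sh 0 1 m).mul_left 2)).add (h.sh 0 2 m)
  simpa [Sh, DD] using this

noncomputable def g : Fn := fun s i => DD (st i.toNat).A s i

lemma g_eq (k : ℕ) (s : ℝ) {i : ℤ} (hi : i ≤ (st k).d + 2) : g s i = DD (st k).A s i := by
  have h1 : i.toNat ≤ (st i.toNat).d := d_mono.id_le _
  rw [g, ← stabD (le_max_left i.toNat k) s (by omega), stabD (le_max_right _ _) s hi]

theorem exists_g : ∃ (g : Fn) (p : ℕ → ℝ) (n : ℕ → ℕ), Function.Injective p ∧ StrictMono n ∧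
    (∀ i, Continuous fun s => g s i) ∧ (∀ s i, g s i ≠ 0 → 1 ≤ i ∧ |s| ≤ i) ∧
    (∀ s (i : ℤ), (i : ℝ) ^ 2 * |g s i| ≤ 36) ∧ (∀ s, |s| < 1 → 0 < g s 1) ∧
    ∀ j k, j < k → ∀ m, ∑ i ∈ range (n k), g (m + p j * i) i = 0 := by
  have hs : ∀ s i, g s i ≠ 0 → 1 ≤ i ∧ |s| ≤ i := fun s i h =>
    ⟨(suppD _ s i h).1, (suppD _ s i h).2.2⟩
  refine ⟨g, fun j => (st (j + 1)).p, fun k => (st k).d + 3, fun a b h => ?_, fun a b h => ?_,
    fun i => ?_, hs, fun s i => ?_, fun s h => ?_, fun j k hjk m => ?_⟩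
  · simpa using p_anti.injective h
  · simpa using d_mono h
  · obtain ⟨_, _, -, -, hL, -⟩ := (st i.toNat).inv
    exact ((hL.cont i).sub ((hL.cont _).const_mul 2)).add (hL.cont _)
  · by_cases h : g s i = 0
    · simp [h]
    · exact bdD _ s i (hs s i h).1
  · rw [g_eq 0 s (by omega)]
    change 0 < DD A0 s 1
    simp [DD, A0, h]
  · have h1 := ED (EE (j := j) (k := k) hjk) m
    have h2 : HasSum (fun i : ℤ => DD (st k).A (m + (st (j + 1)).p * i) i)
        (∑ i ∈ (range ((st k).d + 3)).map Nat.castEmbedding,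
          DD (st k).A (m + (st (j + 1)).p * (i : ℤ)) i) := by
      refine hasSum_sum_of_ne_finset_zero fun i hi => ?_
      by_contra hc
      obtain ⟨a, b, -⟩ := suppD k _ _ hc
      exact hi (mem_map.2 ⟨i.toNat, mem_range.2 (by omega), by simp; omega⟩)
    have h3 := h2.unique h1
    rw [sum_map] at h3
    refine (sum_congr rfl fun i hi => ?_).trans h3
    have : i < (st k).d + 3 := mem_range.1 hi
    rw [g_eq k _ (by omega)]
    simp

end Pool.Agent.H.MP_113557_an
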